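import Pool.Agent.H95.RQ.Targets2

/-!
# Module DUA: characters of a finite quotient
-/

set_option autoImplicit false

namespace Pool.Agent.H56.RQ

open Pool.Agent.H95.RQ Pool.Agent.H28.RC

/-- module DUA -/
theorem pf_DUA : T_DUA := by
  classical
  intro A _ C hC
  have hcard : Nat.card (A ⧸ C) ≠ 0 := hC
  have hfin : Finite (A ⧸ C) := Nat.finite_of_card_ne_zero hcard
  have h1 : Nat.card ((A ⧸ C) →* ℂˣ) = Nat.card (A ⧸ C) :=
    CommGroup.card_monoidHom_of_hasEnoughRootsOfUnity (A ⧸ C) ℂ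
  have hfin2 : Finite ((A ⧸ C) →* ℂˣ) := Nat.finite_of_card_ne_zero (by rw [h1]; exact hcard)
  let _ : Fintype ((A ⧸ C) →* ℂˣ) := Fintype.ofFinite _
  refine ⟨Finset.univ.image fun χ : (A ⧸ C) →* ℂˣ => χ.comp (QuotientGroup.mk' C), ?_, ?_⟩
  · rw [Finset.card_image_of_injective, Finset.card_univ, ← Nat.card_eq_fintype_card, h1]
    · rfl
    · intro χ χ' h
      refine MonoidHom.ext fun x => ?_
      obtain ⟨a, rfl⟩ := QuotientGroup.mk'_surjective C x
      exact DFunLike.congr_fun h a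
  · intro κ hκ c hc
    obtain ⟨χ, -, rfl⟩ := Finset.mem_image.1 hκ
    rw [MonoidHom.comp_apply, QuotientGroup.mk'_apply, (QuotientGroup.eq_one_iff c).2 hc, map_one]

end Pool.Agent.H56.RQ
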