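import Pool.Agent.H32.RQ.Targets

/-!
# Board hpq_modules, row AQ3: the number of the primitive vectors
-/

set_option autoImplicit false

open Finset Pool.Agent.H32.RQ

namespace Pool.Agent.H56.RQ

theorem exists_prime_dvd_of_not_prm {s M : ℕ} [NeZero M] (x : Fin s → ZMod M) (hx : ¬ Prm x) :
    ∃ p ∈ M.primeFactors, ∀ i, p ∣ (x i).val := by
  have h1 : Ideal.span (Set.range x) ≠ ⊤ := by
    intro e
    apply hx
    have h2 : (1 : ZMod M) ∈ Ideal.span (Set.range x) := by
      rw [e]
      trivial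
    obtain ⟨c, hc⟩ := (Ideal.mem_span_range_iff_exists_fun).1 h2
    exact ⟨c, hc⟩
  obtain ⟨m, hm, hle⟩ := Ideal.exists_le_maximal _ h1
  have hmp : m.IsPrime := hm.isPrime
  let P : Ideal ℤ := m.comap (Int.castRingHom (ZMod M))
  have hP : P.IsPrime := Ideal.comap_isPrime _ _
  have hMP : (M : ℤ) ∈ P := by
    show (Int.castRingHom (ZMod M)) (M : ℤ) ∈ m
    simp
  have hM0 : (M : ℤ) ≠ 0 := by exact_mod_cast NeZero.ne M
  obtain ⟨g, hg⟩ : ∃ g : ℤ, P = Ideal.span {g} := by
    have hpr : P.IsPrincipal := IsPrincipalIdealRing.principal P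
    exact hpr.principal
  have hgne : g ≠ 0 := by
    intro e
    rw [hg, e] at hMP
    simp only [Ideal.mem_span_singleton, zero_dvd_iff] at hMP
    exact hM0 hMP
  have hgp : Prime g := by
    rw [hg] at hP
    exact (Ideal.span_singleton_prime hgne).1 hP
  have hp : g.natAbs.Prime := Int.prime_iff_natAbs_prime.1 hgp
  have hdiv : ∀ n : ℕ, (n : ℤ) ∈ P → g.natAbs ∣ n := by
    intro n hn
    rw [hg, Ideal.mem_span_singleton] at hn
    have := Int.natAbs_dvd_natAbs.2 hn
    simpa using this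
  refine ⟨g.natAbs, ?_, fun i => ?_⟩
  · rw [Nat.mem_primeFactors]
    exact ⟨hp, hdiv M hMP, NeZero.ne M⟩
  · apply hdiv
    show (Int.castRingHom (ZMod M)) (((x i).val : ℕ) : ℤ) ∈ m
    have e : (Int.castRingHom (ZMod M)) (((x i).val : ℕ) : ℤ) = x i := by
      simp
    rw [e]
    exact hle (Ideal.subset_span ⟨i, rfl⟩)

theorem card_mult {M p : ℕ} [NeZero M] (hp : 0 < p) (hpM : p ∣ M) :
    (Finset.univ.filter fun a : ZMod M => p ∣ a.val).card ≤ M / p := by
  rw [← Finset.card_range (M / p)]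
  refine Finset.card_le_card_of_injOn (fun a => a.val / p) ?_ ?_
  · intro a ha
    rw [Finset.mem_coe, Finset.mem_filter] at ha
    rw [Finset.mem_coe, Finset.mem_range]
    exact Nat.div_lt_div_of_lt_of_dvd hpM (ZMod.val_lt a)
  · intro a ha b hb hab
    rw [Finset.mem_coe, Finset.mem_filter] at ha hb
    apply ZMod.val_injective M
    have h1 : a.val / p = b.val / p := hab
    rw [← Nat.div_mul_cancel ha.2, ← Nat.div_mul_cancel hb.2, h1]

open Classical in
theorem pf_AQ3 : T_AQ3 := by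
  intro s M _
  have hM0 : (0 : ℝ) < M := by exact_mod_cast Nat.pos_of_ne_zero (NeZero.ne M)
  set N := Finset.univ.filter fun x : Fin s → ZMod M => Prm x with hN
  set N' := Finset.univ.filter fun x : Fin s → ZMod M => ¬ Prm x with hN'
  have h1 : N.card + N'.card = M ^ s := by
    have h2 := Finset.card_filter_add_card_filter_not (s := (Finset.univ : Finset (Fin s → ZMod M)))
      (fun x => Prm x)
    rw [Finset.card_univ, Fintype.card_fun, ZMod.card, Fintype.card_fin] at h2
    exact h2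
  have hB : ∀ p ∈ M.primeFactors,
      (Finset.univ.filter fun x : Fin s → ZMod M => ∀ i, p ∣ (x i).val).card ≤ (M / p) ^ s := by
    intro p hp
    have e : (Finset.univ.filter fun x : Fin s → ZMod M => ∀ i, p ∣ (x i).val) =
        Fintype.piFinset fun _ : Fin s => Finset.univ.filter fun a : ZMod M => p ∣ a.val := by
      ext x
      simp only [Finset.mem_filter, Finset.mem_univ, true_and, Fintype.mem_piFinset]
    rw [e, Fintype.card_piFinset, Finset.prod_const, Finset.card_univ, Fintype.card_fin]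
    exact Nat.pow_le_pow_left
      (card_mult (Nat.prime_of_mem_primeFactors hp).pos (Nat.dvd_of_mem_primeFactors hp)) s
  have h3 : N'.card ≤ ∑ p ∈ M.primeFactors, (M / p) ^ s := by
    have hsub : N' ⊆ M.primeFactors.biUnion fun p =>
        Finset.univ.filter fun x : Fin s → ZMod M => ∀ i, p ∣ (x i).val := by
      intro x hx
      rw [hN', Finset.mem_filter] at hx
      obtain ⟨p, hp, h4⟩ := exists_prime_dvd_of_not_prm x hx.2
      rw [Finset.mem_biUnion]
      exact ⟨p, hp, Finset.mem_filter.2 ⟨Finset.mem_univ _, h4⟩⟩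
    calc N'.card ≤ _ := Finset.card_le_card hsub
      _ ≤ _ := Finset.card_biUnion_le
      _ ≤ ∑ p ∈ M.primeFactors, (M / p) ^ s := Finset.sum_le_sum hB
  have h4 : (N'.card : ℝ) ≤ ∑ p ∈ M.primeFactors, (M : ℝ) ^ s / (p : ℝ) ^ s := by
    calc (N'.card : ℝ) ≤ ((∑ p ∈ M.primeFactors, (M / p) ^ s : ℕ) : ℝ) := by exact_mod_cast h3
      _ = ∑ p ∈ M.primeFactors, (M : ℝ) ^ s / (p : ℝ) ^ s := by
        rw [Nat.cast_sum]
        refine Finset.sum_congr rfl fun p hp => ?_
        have hpp := (Nat.prime_of_mem_primeFactors hp).pos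
        have hp0 : (p : ℝ) ≠ 0 := by exact_mod_cast hpp.ne'
        rw [Nat.cast_pow, Nat.cast_div (Nat.dvd_of_mem_primeFactors hp) hp0, div_pow]
  have h5 : (N.card : ℝ) + N'.card = (M : ℝ) ^ s := by exact_mod_cast h1
  have h6 : (M : ℝ) ^ s * (1 - ∑ p ∈ M.primeFactors, 1 / (p : ℝ) ^ s) =
      (M : ℝ) ^ s - ∑ p ∈ M.primeFactors, (M : ℝ) ^ s / (p : ℝ) ^ s := by
    rw [mul_sub, mul_one, Finset.mul_sum]
    congr 1
    refine Finset.sum_congr rfl fun p _ => ?_
    ring
  rw [h6]
  linarith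

end Pool.Agent.H56.RQ
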